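import Mathlib
import Pool.Agent.E8helper32.SB.Stm

/-!
# Comparison of the zeros of Bessel functions of two orders
-/

set_option autoImplicit false

open Metric Set Filter Topology

namespace Pool.Agent.E8helper51.SB

open Pool.Agent.E8helper32.SB

theorem sign_of_no_zero {f : ℝ → ℝ} (hf : Continuous f) {a x : ℝ}
    (h : ∀ t ∈ Ioo a x, f t ≠ 0) :
    ∃ s : ℝ, (s = 1 ∨ s = -1) ∧ ∀ t ∈ Ioo a x, 0 < s * f t := by
  by_cases hpos : ∃ m ∈ Ioo a x, 0 < f m
  · obtain ⟨m, hm, hfm⟩ := hpos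
    refine ⟨1, Or.inl rfl, fun t ht => ?_⟩
    rw [one_mul]
    by_contra hneg
    push Not at hneg
    have h1 := isPreconnected_Ioo.intermediate_value ht hm hf.continuousOn
    obtain ⟨z, hz, hz0⟩ := h1 (⟨hneg, hfm.le⟩ : (0:ℝ) ∈ Icc (f t) (f m))
    exact h z hz hz0
  · push Not at hpos
    refine ⟨-1, Or.inr rfl, fun t ht => ?_⟩
    have h1 := hpos t ht
    have h2 := h t ht
    have h3 : f t < 0 := lt_of_le_of_ne h1 h2
    linarith

theorem deriv_right {F : ℝ → ℝ} {a x d : ℝ} (hax : a < x) (h : HasDerivAt F d a) (h0 : F a = 0)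
    (hpos : ∀ t ∈ Ioo a x, 0 < F t) : 0 ≤ d := by
  have h1 := (hasDerivAt_iff_tendsto_slope.1 h).mono_left
    (nhdsWithin_mono a (fun t (ht : t ∈ Ioi a) => (ne_of_gt ht : t ≠ a)))
  refine ge_of_tendsto h1 ?_
  filter_upwards [Ioo_mem_nhdsGT hax] with t ht
  rw [slope_def_field, h0, sub_zero]
  exact div_nonneg (hpos t ht).le (sub_nonneg.2 ht.1.le)

theorem deriv_left {F : ℝ → ℝ} {a x d : ℝ} (hax : a < x) (h : HasDerivAt F d x) (h0 : F x = 0)
    (hpos : ∀ t ∈ Ioo a x, 0 < F t) : d ≤ 0 := by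
  have h1 := (hasDerivAt_iff_tendsto_slope.1 h).mono_left
    (nhdsWithin_mono x (fun t (ht : t ∈ Iio x) => (ne_of_lt ht : t ≠ x)))
  refine le_of_tendsto h1 ?_
  filter_upwards [Ioo_mem_nhdsLT hax] with t ht
  rw [slope_def_field, h0, sub_zero]
  exact div_nonpos_of_nonneg_of_nonpos (hpos t ht).le (sub_nonpos.2 ht.2.le)

theorem nonneg_of_closure {G : ℝ → ℝ} (hG : Continuous G) {a x : ℝ} (hax : a < x)
    (hpos : ∀ t ∈ Ioo a x, 0 < G t) : ∀ t ∈ Icc a x, 0 ≤ G t := by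
  have hcl : IsClosed {t : ℝ | 0 ≤ G t} := isClosed_le continuous_const hG
  have hsub : Ioo a x ⊆ {t : ℝ | 0 ≤ G t} := fun t ht => (hpos t ht).le
  have h2 := closure_minimal hsub hcl
  rw [closure_Ioo hax.ne] at h2
  exact fun t ht => h2 ht

/-- the derivative of the weighted Wronskian -/
theorem wronskian_hasDerivAt {μ ν k c1 c2 : ℝ} {F G F1 G1 : ℝ → ℝ} (hk : 0 < k)
    (hF : HasDerivAt F (F1 k) k) (hG : HasDerivAt G (G1 k) k)
    (hF1 : HasDerivAt F1 c1 k) (hG1 : HasDerivAt G1 c2 k)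
    (h1 : k * c1 + (ν + 1) * F1 k + F k = 0) (h2 : k * c2 + (μ + 1) * G1 k + G k = 0) :
    HasDerivAt (fun t => t ^ ((μ + ν) / 2) *
      ((ν - μ) / 2 * (F t * G t) + t * (F1 t * G t - F t * G1 t)))
      ((ν ^ 2 - μ ^ 2) / 4 * k ^ ((μ + ν) / 2 - 1) * (F k * G k)) k := by
  have hpow : HasDerivAt (fun t : ℝ => t ^ ((μ + ν) / 2))
      ((μ + ν) / 2 * k ^ ((μ + ν) / 2 - 1)) k :=
    Real.hasDerivAt_rpow_const (Or.inl hk.ne')
  have hP : HasDerivAt (fun t => (ν - μ) / 2 * (F t * G t) + t * (F1 t * G t - F t * G1 t))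
      ((ν - μ) / 2 * (F1 k * G k + F k * G1 k) +
        (1 * (F1 k * G k - F k * G1 k) +
          k * ((c1 * G k + F1 k * G1 k) - (F1 k * G1 k + F k * c2)))) k := by
    have e1 := (hF.mul hG).const_mul ((ν - μ) / 2)
    have e2 := (hasDerivAt_id k).mul ((hF1.mul hG).sub (hF.mul hG1))
    have e3 := e1.add e2
    exact e3
  have hW := hpow.mul hP
  refine hW.congr_deriv ?_
  have hkk : k ^ ((μ + ν) / 2) = k * k ^ ((μ + ν) / 2 - 1) := by
    rw [Real.rpow_sub_one hk.ne']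
    field_simp
  rw [hkk]
  have e1 : k * c1 = -((ν + 1) * F1 k + F k) := by linarith
  have e2 : k * c2 = -((μ + 1) * G1 k + G k) := by linarith
  have e3 : k * ((c1 * G k + F1 k * G1 k) - (F1 k * G1 k + F k * c2)) =
      (k * c1) * G k - F k * (k * c2) := by ring
  rw [e3, e1, e2]
  ring

theorem sturm : S_BDER → S_BREC → S_BFIN → S_STURM := by
  intro hder hrec hfin μ ν a ξ hμ hμν ha haξ h0 hξ
  have hν : 0 < ν := hμ.trans hμν
  by_contra hno
  push Not at hno
  -- derivatives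
  have hcont : ∀ m : ℝ, 0 < m → Continuous (Bf m) := fun m hm =>
    continuous_iff_continuousAt.2 fun k => (hder m k (by linarith)).continuousAt
  have hD1 : ∀ m k : ℝ, 0 < m → HasDerivAt (fun t => -(Bf (m + 1) t / (m + 1)))
      (Bf (m + 2) k / ((m + 1) * (m + 2))) k := by
    intro m k hm
    have h1 := ((hder (m + 1) k (by linarith)).div_const (m + 1)).neg
    refine h1.congr_deriv ?_
    have e1 : m + 1 + 1 = m + 2 := by ring
    rw [e1]
    have : m + 1 ≠ 0 := by linarith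
    have : m + 2 ≠ 0 := by linarith
    field_simp
  have hode : ∀ m k : ℝ, 0 < m → k * (Bf (m + 2) k / ((m + 1) * (m + 2))) +
      (m + 1) * (-(Bf (m + 1) k / (m + 1))) + Bf m k = 0 := by
    intro m k hm
    have h1 := hrec m k (fun n => by positivity)
    have hm1 : m + 1 ≠ 0 := by linarith
    have hm2 : m + 2 ≠ 0 := by linarith
    rw [h1]
    field_simp
    ring
  -- the smallest zero
  obtain ⟨x, ⟨hax, hxξ, hx0⟩, hmin⟩ : ∃ x ∈ {k : ℝ | a < k ∧ k ≤ ξ ∧ Bf ν k = 0},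
      ∀ y ∈ {k : ℝ | a < k ∧ k ≤ ξ ∧ Bf ν k = 0}, id x ≤ id y := by
    have hfin' : {k : ℝ | a < k ∧ k ≤ ξ ∧ Bf ν k = 0}.Finite :=
      (hfin ν ξ (by linarith)).subset (fun k hk => ⟨ha.trans hk.1.le, hk.2.1, hk.2.2⟩)
    have hne : {k : ℝ | a < k ∧ k ≤ ξ ∧ Bf ν k = 0}.Nonempty := ⟨ξ, haξ, le_rfl, hξ⟩
    exact Set.exists_min_image _ id hfin' hne
  have hx : 0 < x := lt_of_le_of_lt ha hax
  have hνno : ∀ t ∈ Ioo a x, Bf ν t ≠ 0 := by
    intro t ht h
    have h1 := hmin t ⟨ht.1, (ht.2.le.trans hxξ), h⟩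
    simp only [id] at h1
    exact absurd ht.2 (not_lt.2 h1)
  have hμno : ∀ t ∈ Ioo a x, Bf μ t ≠ 0 := fun t ht =>
    hno t ht.1 (lt_of_lt_of_le ht.2 hxξ)
  obtain ⟨s, hs, hsF⟩ := sign_of_no_zero (hcont ν hν) hνno
  obtain ⟨r, hr, hrG⟩ := sign_of_no_zero (hcont μ hμ) hμno
  set F : ℝ → ℝ := fun t => s * Bf ν t with hFdef
  set G : ℝ → ℝ := fun t => r * Bf μ t with hGdef
  set F1 : ℝ → ℝ := fun t => s * (-(Bf (ν + 1) t / (ν + 1))) with hF1def
  set G1 : ℝ → ℝ := fun t => r * (-(Bf (μ + 1) t / (μ + 1))) with hG1def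
  have hF : ∀ k, HasDerivAt F (F1 k) k := fun k => (hder ν k (by linarith)).const_mul s
  have hG : ∀ k, HasDerivAt G (G1 k) k := fun k => (hder μ k (by linarith)).const_mul r
  have hF1 : ∀ k, HasDerivAt F1 (s * (Bf (ν + 2) k / ((ν + 1) * (ν + 2)))) k :=
    fun k => (hD1 ν k hν).const_mul s
  have hG1 : ∀ k, HasDerivAt G1 (r * (Bf (μ + 2) k / ((μ + 1) * (μ + 2)))) k :=
    fun k => (hD1 μ k hμ).const_mul r
  have hFc : Continuous F := continuous_const.mul (hcont ν hν)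
  have hGc : Continuous G := continuous_const.mul (hcont μ hμ)
  have hF1c : Continuous F1 := continuous_iff_continuousAt.2 fun k => (hF1 k).continuousAt
  have hG1c : Continuous G1 := continuous_iff_continuousAt.2 fun k => (hG1 k).continuousAt
  set W : ℝ → ℝ := fun t => t ^ ((μ + ν) / 2) *
      ((ν - μ) / 2 * (F t * G t) + t * (F1 t * G t - F t * G1 t)) with hWdef
  have hW : ∀ k, 0 < k → HasDerivAt W
      ((ν ^ 2 - μ ^ 2) / 4 * k ^ ((μ + ν) / 2 - 1) * (F k * G k)) k := by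
    intro k hk
    refine wronskian_hasDerivAt hk (hF k) (hG k) (hF1 k) (hG1 k) ?_ ?_
    · have h1 := hode ν k hν
      have h2 : k * (s * (Bf (ν + 2) k / ((ν + 1) * (ν + 2)))) + (ν + 1) * F1 k + F k =
          s * (k * (Bf (ν + 2) k / ((ν + 1) * (ν + 2))) +
            (ν + 1) * (-(Bf (ν + 1) k / (ν + 1))) + Bf ν k) := by
        simp only [hF1def, hFdef]; ring
      rw [h2, h1, mul_zero]
    · have h1 := hode μ k hμ
      have h2 : k * (r * (Bf (μ + 2) k / ((μ + 1) * (μ + 2)))) + (μ + 1) * G1 k + G k =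
          r * (k * (Bf (μ + 2) k / ((μ + 1) * (μ + 2))) +
            (μ + 1) * (-(Bf (μ + 1) k / (μ + 1))) + Bf μ k) := by
        simp only [hG1def, hGdef]; ring
      rw [h2, h1, mul_zero]
  have hWc : Continuous W := by
    refine Continuous.mul ?_ ?_
    · exact Real.continuous_rpow_const (by linarith)
    · exact (continuous_const.mul (hFc.mul hGc)).add
        (continuous_id.mul ((hF1c.mul hGc).sub (hFc.mul hG1c)))
  have hFpos : ∀ t ∈ Ioo a x, 0 < F t := hsF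
  have hGpos : ∀ t ∈ Ioo a x, 0 < G t := hrG
  have hG0 := nonneg_of_closure hGc hax hGpos
  have hmono : StrictMonoOn W (Icc a x) := by
    refine strictMonoOn_of_deriv_pos (convex_Icc a x) hWc.continuousOn ?_
    intro t ht
    rw [interior_Icc] at ht
    have ht0 : 0 < t := lt_of_le_of_lt ha ht.1
    rw [(hW t ht0).deriv]
    have h1 : 0 < (ν ^ 2 - μ ^ 2) / 4 := by nlinarith
    exact mul_pos (mul_pos h1 (Real.rpow_pos_of_pos ht0 _)) (mul_pos (hFpos t ht) (hGpos t ht))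
  have hlt : W a < W x := hmono (left_mem_Icc.2 hax.le) (right_mem_Icc.2 hax.le) hax
  have hWx : W x ≤ 0 := by
    have hFx : F x = 0 := by simp only [hFdef, hx0, mul_zero]
    have h1 : F1 x ≤ 0 := deriv_left hax (hF x) hFx hFpos
    have h2 : W x = x ^ ((μ + ν) / 2) * (x * (F1 x * G x)) := by
      simp only [hWdef]
      rw [hFx]; ring
    rw [h2]
    exact mul_nonpos_of_nonneg_of_nonpos (Real.rpow_nonneg hx.le _)
      (mul_nonpos_of_nonneg_of_nonpos hx.le
        (mul_nonpos_of_nonpos_of_nonneg h1 (hG0 x (right_mem_Icc.2 hax.le))))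
  have hWa : 0 ≤ W a := by
    rcases h0 with h0 | h0
    · have h2 : W a = 0 := by
        simp only [hWdef]
        rw [h0, Real.zero_rpow (by linarith), zero_mul]
      rw [h2]
    · have hFa : F a = 0 := by simp only [hFdef, h0, mul_zero]
      have h1 : 0 ≤ F1 a := deriv_right hax (hF a) hFa hFpos
      have h2 : W a = a ^ ((μ + ν) / 2) * (a * (F1 a * G a)) := by
        simp only [hWdef]
        rw [hFa]; ring
      rw [h2]
      exact mul_nonneg (Real.rpow_nonneg ha _)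
        (mul_nonneg ha (mul_nonneg h1 (hG0 a (left_mem_Icc.2 hax.le))))
  linarith

end Pool.Agent.E8helper51.SB
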